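import Mathlib
import Pool.Agent.Lib.MP_f3b2fd_co.SPFinal

set_option autoImplicit false

open MeasureTheory Set Real Filter

namespace Pool.Agent.Results.MP_f3b2fd_co.DoubleLattice

open Module Submodule Pool.Agent.Lib.MP_f3b2fd_co

/-- The open unit balls centred at the points of `X` are pairwise disjoint. -/
def IsPacking (X : Set (EuclideanSpace ℝ (Fin 3))) : Prop :=
  X.PairwiseDisjoint fun x => Metric.ball x 1

/-- The soft density of `X`: the upper density of the union of the closed balls of radius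
`1 + l` centred at the points of `X`. -/
noncomputable def softDensity (X : Set (EuclideanSpace ℝ (Fin 3))) (l : ℝ) : ENNReal :=
  limsup (fun R : ℝ => volume (Metric.ball 0 R ∩ ⋃ x ∈ X, Metric.closedBall x (1 + l)) /
    volume (Metric.ball (0 : EuclideanSpace ℝ (Fin 3)) R)) atTop

/-- `X` is the union of two translates of one lattice of full rank. -/
def IsDoubleLattice (X : Set (EuclideanSpace ℝ (Fin 3))) : Prop :=
  ∃ (L : Submodule ℤ (EuclideanSpace ℝ (Fin 3))) (_ : DiscreteTopology L),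
    IsZLattice ℝ L ∧ ∃ a b : EuclideanSpace ℝ (Fin 3), ∀ x, x ∈ X ↔ x - a ∈ L ∨ x - b ∈ L

/-- The face-centred cubic lattice of minimal distance two. -/
def fcc : Set (EuclideanSpace ℝ (Fin 3)) :=
  {x | ∃ i j k : ℤ, Even (i + j + k) ∧ x = !₂[√2 * i, √2 * j, √2 * k]}

theorem packing_iff (X : Set E3) : IsPacking X ↔ ∀ x ∈ X, ∀ y ∈ X, x ≠ y → 2 ≤ ‖x - y‖ := by
  refine forall₅_congr fun x _ y _ _ => ?_
  rw [Function.onFun, disjoint_ball_ball_iff one_pos one_pos, dist_eq_norm, one_add_one_eq_two]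

theorem exists_basis (L : Submodule ℤ E3) [DiscreteTopology L] [IsZLattice ℝ L] :
    ∃ b : Basis (Fin 3) ℝ E3, L = span ℤ (range b) := by
  have h : finrank ℤ L = 3 := by rw [ZLattice.rank ℝ L]; simp
  exact ⟨(Module.finBasisOfFinrankEq ℤ L h).ofZLatticeBasis ℝ L,
    (Basis.ofZLatticeBasis_span ℝ L _).symm⟩

theorem result (l : ℝ) (h0 : 0 < l) (h1 : l ≤ 1 / 20) :
    (∀ X : Set (EuclideanSpace ℝ (Fin 3)), IsPacking X → IsDoubleLattice X →
      softDensity X l ≤ ENNReal.ofReal (π * (1 + 3 * l - 6 * l ^ 2 - 5 * l ^ 3) / √18)) ∧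
    IsPacking fcc ∧ IsDoubleLattice fcc ∧
      softDensity fcc l = ENNReal.ofReal (π * (1 + 3 * l - 6 * l ^ 2 - 5 * l ^ 3) / √18) := by
  rw [← val_eq]
  obtain ⟨c, e, -, hp, hd⟩ := fcc_main fcc rfl
  refine ⟨?_, (packing_iff _).2 hp,
    ⟨span ℤ (range c), inferInstance, inferInstance, 0, 0, fun x => by simp [e]⟩, hd l h0 h1⟩
  rintro X hX ⟨L, _, _, a, b, h⟩
  obtain ⟨v, rfl⟩ := exists_basis L
  exact double_main v a b X ((packing_iff X).1 hX) h h0 h1

end Pool.Agent.Results.MP_f3b2fd_co.DoubleLattice
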