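import Mathlib
import Pool.Agent.Lib.MP_f3b2fd_co.Main

set_option autoImplicit false

open MeasureTheory Set Real Filter

namespace Pool.Agent.Results.MP_f3b2fd_co.LatticeSoftKepler

open Module Submodule Pool.Agent.Lib.MP_f3b2fd_co

/-- The open unit balls centred at the points of `X` are pairwise disjoint. -/
def IsPacking (X : Set (EuclideanSpace ℝ (Fin 3))) : Prop :=
  X.PairwiseDisjoint fun x => Metric.ball x 1

/-- The soft density of `X`: the upper density of the union of the closed balls of radius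
`1 + l` centred at the points of `X`. -/
noncomputable def softDensity (X : Set (EuclideanSpace ℝ (Fin 3))) (l : ℝ) : ENNReal :=
  limsup (fun R : ℝ => volume (Metric.ball 0 R ∩ ⋃ x ∈ X, Metric.closedBall x (1 + l)) /
    volume (Metric.ball (0 : EuclideanSpace ℝ (Fin 3)) R)) atTop

/-- The face-centred cubic lattice of minimal distance two: it is generated by the three edge
vectors at a vertex of a regular tetrahedron of edge length two. -/
def IsFCC (L : Submodule ℤ (EuclideanSpace ℝ (Fin 3))) : Prop :=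
  ∃ c : Fin 3 → EuclideanSpace ℝ (Fin 3), (∀ i, ‖c i‖ = 2) ∧ (∀ i j, i ≠ j → ‖c i - c j‖ = 2) ∧
    L = span ℤ (range c)

theorem packing_iff (L : Submodule ℤ E3) : IsPacking L ↔ ∀ v ∈ L, v ≠ 0 → 2 ≤ ‖v‖ := by
  constructor
  · intro h v hv h0
    have := (disjoint_ball_ball_iff one_pos one_pos).1 (h hv L.zero_mem h0)
    rw [dist_zero_right] at this
    linarith
  · intro h x hx y hy hxy
    refine (disjoint_ball_ball_iff one_pos one_pos).2 ?_
    have := h _ (L.sub_mem hx hy) (sub_ne_zero.2 hxy)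
    rw [dist_eq_norm]
    linarith

theorem dens_eq (c : Basis (Fin 3) ℝ E3) (l : ℝ) :
    softDensity (span ℤ (range c) : Submodule ℤ E3) l = ENNReal.ofReal (xv c (1 + l) / dt c) := by
  rw [← rho_eq]
  exact (per_tendsto c _ (per_balls c (1 + l))).limsup_eq

theorem exists_basis (L : Submodule ℤ E3) [DiscreteTopology L] [IsZLattice ℝ L] :
    ∃ b : Basis (Fin 3) ℝ E3, L = span ℤ (range b) := by
  have h : finrank ℤ L = 3 := by rw [ZLattice.rank ℝ L]; simp
  exact ⟨(Module.finBasisOfFinrankEq ℤ L h).ofZLatticeBasis ℝ L,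
    (Basis.ofZLatticeBasis_span ℝ L _).symm⟩

theorem span_tri (a b c : E3) :
    span ℤ (range ![a, a + b, a + b + c]) = span ℤ (range ![a, b, c]) := by
  refine le_antisymm (span_le.2 ?_) (span_le.2 ?_)
  · have h0 : a ∈ span ℤ (range ![a, b, c]) := subset_span ⟨0, rfl⟩
    have h1 : b ∈ span ℤ (range ![a, b, c]) := subset_span ⟨1, rfl⟩
    have h2 : c ∈ span ℤ (range ![a, b, c]) := subset_span ⟨2, rfl⟩
    rintro _ ⟨i, rfl⟩
    fin_cases i
    · exact h0
    · exact add_mem h0 h1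
    · exact add_mem (add_mem h0 h1) h2
  · have h0 : a ∈ span ℤ (range ![a, a + b, a + b + c]) := subset_span ⟨0, rfl⟩
    have h1 : a + b ∈ span ℤ (range ![a, a + b, a + b + c]) := subset_span ⟨1, rfl⟩
    have h2 : a + b + c ∈ span ℤ (range ![a, a + b, a + b + c]) := subset_span ⟨2, rfl⟩
    rintro _ ⟨i, rfl⟩
    fin_cases i
    · exact h0
    · simpa using sub_mem h1 h0
    · simpa using sub_mem h2 h1

theorem fun_eq (c : Fin 3 → E3) : ![c 0, c 1, c 2] = c := by
  funext i
  fin_cases i <;> rfl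

theorem fcc_of_reg {c : Basis (Fin 3) ℝ E3} (h : Reg c) : IsFCC (span ℤ (range c)) := by
  refine ⟨![c 0, c 0 + c 1, c 0 + c 1 + c 2], ?_, ?_, by rw [span_tri, fun_eq]⟩
  · intro i
    fin_cases i
    · exact h.n0
    · exact h.n4
    · exact h.n3
  · have e1 : ‖c 0 + c 1 - c 0‖ = 2 := by simpa using h.n1
    have e2 : ‖c 0 + c 1 + c 2 - (c 0 + c 1)‖ = 2 := by simpa using h.n2
    have e3 : ‖c 0 + c 1 + c 2 - c 0‖ = 2 := by
      rw [← h.n5]
      congr 1
      abel
    intro i j hij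
    fin_cases i <;> fin_cases j
    · exact absurd rfl hij
    · exact (norm_sub_rev _ _).trans e1
    · exact (norm_sub_rev _ _).trans e3
    · exact e1
    · exact absurd rfl hij
    · exact (norm_sub_rev _ _).trans e2
    · exact e3
    · exact e2
    · exact absurd rfl hij

theorem reg_of_fcc (b : Basis (Fin 3) ℝ E3) (h : IsFCC (span ℤ (range b))) :
    ∃ c : Basis (Fin 3) ℝ E3, span ℤ (range c) = span ℤ (range b) ∧ Reg c := by
  obtain ⟨e, h1, h2, h3⟩ := h
  have hs : span ℤ (range ![e 0, e 1 - e 0, e 2 - e 1]) = span ℤ (range b) := by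
    rw [← span_tri, h3, show e 0 + (e 1 - e 0) + (e 2 - e 1) = e 2 by abel,
      show e 0 + (e 1 - e 0) = e 1 by abel, fun_eq]
  obtain ⟨c, hc⟩ := basis_of_span b _ hs
  have e0 : c 0 = e 0 := by rw [hc]; rfl
  have e1 : c 1 = e 1 - e 0 := by rw [hc]; rfl
  have e2 : c 2 = e 2 - e 1 := by rw [hc]; rfl
  refine ⟨c, by rw [hc, hs], ?_, ?_, ?_, ?_, ?_, ?_⟩
  · rw [e0, h1]
  · rw [e1, h2 1 0 (by decide)]
  · rw [e2, h2 2 1 (by decide)]
  · rw [e0, e1, e2, show e 0 + (e 1 - e 0) + (e 2 - e 1) = e 2 by abel, h1]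
  · rw [e0, e1, show e 0 + (e 1 - e 0) = e 1 by abel, h1]
  · rw [e1, e2, show e 1 - e 0 + (e 2 - e 1) = e 2 - e 0 by abel, h2 2 0 (by decide)]

theorem exists_reg : ∃ c : Basis (Fin 3) ℝ E3, Reg c := by
  have h2 : √2 ^ 2 = 2 := Real.sq_sqrt (by norm_num)
  have h0 : (0 : ℝ) < √2 := Real.sqrt_pos.2 (by norm_num)
  set v : Fin 3 → E3 := ![!₂[√2, √2, 0], !₂[0, -√2, √2], !₂[-√2, √2, 0]] with hv
  have hli : LinearIndependent ℝ v := by
    rw [Fintype.linearIndependent_iff]
    intro g hg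
    have k0 := congrArg (fun x : E3 => x 0) hg
    have k1 := congrArg (fun x : E3 => x 1) hg
    have k2 := congrArg (fun x : E3 => x 2) hg
    simp [hv, Fin.sum_univ_three] at k0 k1 k2
    have z0 : g 0 = 0 := by
      rw [k2] at k1
      nlinarith
    have z1 : g 1 = 0 := k2
    have z2 : g 2 = 0 := by
      rw [k2] at k1
      nlinarith
    intro i
    fin_cases i
    · exact z0
    · exact z1
    · exact z2
  have key : ∀ x : E3, x 0 ^ 2 + x 1 ^ 2 + x 2 ^ 2 = 4 → ‖x‖ = 2 := by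
    intro x hx
    rw [← sq_eq_sq₀ (norm_nonneg _) (by norm_num), EuclideanSpace.real_norm_sq_eq,
      Fin.sum_univ_three, hx]
    norm_num
  refine ⟨basisOfLinearIndependentOfCardEqFinrank hli (by simp), ?_, ?_, ?_, ?_, ?_, ?_⟩ <;>
    refine key _ ?_ <;> simp [hv] <;> norm_num

theorem result (l : ℝ) (h0 : 0 < l) (h1 : l ≤ 2 / √3 - 1) :
    (∀ (L : Submodule ℤ (EuclideanSpace ℝ (Fin 3))) [DiscreteTopology L] [IsZLattice ℝ L],
      IsPacking L →
        softDensity L l ≤ ENNReal.ofReal (π * (1 + 3 * l - 6 * l ^ 2 - 5 * l ^ 3) / √18) ∧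
        (softDensity L l = ENNReal.ofReal (π * (1 + 3 * l - 6 * l ^ 2 - 5 * l ^ 3) / √18) ↔
          IsFCC L)) ∧
    ∃ L : Submodule ℤ (EuclideanSpace ℝ (Fin 3)), ∃ _ : DiscreteTopology L,
      IsZLattice ℝ L ∧ IsPacking L ∧ IsFCC L := by
  have hr : (1 + l) ^ 2 ≤ 4 / 3 := by
    have h3 : (2 / √3) ^ 2 = 4 / 3 := by
      rw [div_pow, Real.sq_sqrt (by norm_num)]
      norm_num
    rw [← h3]
    exact pow_le_pow_left₀ (by linarith) (by linarith) 2
  constructor
  · intro L _ _ hp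
    obtain ⟨b, rfl⟩ := exists_basis L
    rw [packing_iff] at hp
    obtain ⟨c, hs, k1, k2⟩ := upper_main b h0 hr hp
    have hle : softDensity (span ℤ (range b) : Submodule ℤ E3) l ≤
        ENNReal.ofReal (Wv l / √32) := by
      rw [← hs, dens_eq]
      exact ENNReal.ofReal_le_ofReal k1
    rw [← val_eq]
    refine ⟨hle, fun h => ?_, fun h => le_antisymm hle ?_⟩
    · rw [← hs, dens_eq] at h
      rw [← hs]
      refine fcc_of_reg (k2 ?_)
      exact (ENNReal.ofReal_le_ofReal_iff (div_nonneg (xv_nonneg _ _) (dt_pos c).le)).1 h.ge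
    · obtain ⟨e, hs', he⟩ := reg_of_fcc b h
      rw [← hs', dens_eq]
      exact ENNReal.ofReal_le_ofReal (lower_main he h0 hr)
  · obtain ⟨c, hc⟩ := exists_reg
    exact ⟨span ℤ (range c), inferInstance, inferInstance, (packing_iff _).2 (reg_pack hc),
      fcc_of_reg hc⟩

end Pool.Agent.Results.MP_f3b2fd_co.LatticeSoftKepler
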