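import Mathlib
import Pool.Agent.Lib.MP_f3b2fd_co.SPFinal

set_option autoImplicit false

open MeasureTheory Set Real Filter

namespace Pool.Agent.Results.MP_f3b2fd_co.ShortPeriod

open Pool.Agent.Lib.MP_f3b2fd_co

/-- The open unit balls centred at the points of `X` are pairwise disjoint. -/
def IsPacking (X : Set (EuclideanSpace ℝ (Fin 3))) : Prop :=
  X.PairwiseDisjoint fun x => Metric.ball x 1

/-- The soft density of `X`: the upper density of the union of the closed balls of radius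
`1 + l` centred at the points of `X`. -/
noncomputable def softDensity (X : Set (EuclideanSpace ℝ (Fin 3))) (l : ℝ) : ENNReal :=
  limsup (fun R : ℝ => volume (Metric.ball 0 R ∩ ⋃ x ∈ X, Metric.closedBall x (1 + l)) /
    volume (Metric.ball (0 : EuclideanSpace ℝ (Fin 3)) R)) atTop

/-- `X` is carried into itself by a nonzero translation of length at most `13 / 5`. -/
def HasShortPeriod (X : Set (EuclideanSpace ℝ (Fin 3))) : Prop :=
  ∃ t : EuclideanSpace ℝ (Fin 3), t ≠ 0 ∧ ‖t‖ ≤ 13 / 5 ∧ ∀ x ∈ X, x + t ∈ X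

/-- The face-centred cubic lattice of minimal distance two. -/
def fcc : Set (EuclideanSpace ℝ (Fin 3)) :=
  {x | ∃ i j k : ℤ, Even (i + j + k) ∧ x = !₂[√2 * i, √2 * j, √2 * k]}

theorem packing_iff (X : Set E3) : IsPacking X ↔ ∀ x ∈ X, ∀ y ∈ X, x ≠ y → 2 ≤ ‖x - y‖ := by
  refine forall₅_congr fun x _ y _ _ => ?_
  rw [Function.onFun, disjoint_ball_ball_iff one_pos one_pos, dist_eq_norm, one_add_one_eq_two]

theorem result (l : ℝ) (h0 : 0 < l) (h1 : l ≤ 1 / 20) :
    (∀ X : Set (EuclideanSpace ℝ (Fin 3)), IsPacking X → HasShortPeriod X →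
      softDensity X l ≤ ENNReal.ofReal (π * (1 + 3 * l - 6 * l ^ 2 - 5 * l ^ 3) / √18)) ∧
    IsPacking fcc ∧ HasShortPeriod fcc ∧
      softDensity fcc l = ENNReal.ofReal (π * (1 + 3 * l - 6 * l ^ 2 - 5 * l ^ 3) / √18) := by
  rw [← val_eq]
  obtain ⟨c, e, n0, hp, hd⟩ := fcc_main fcc rfl
  refine ⟨?_, (packing_iff _).2 hp, ⟨c 0, c.ne_zero 0, by rw [n0]; norm_num, ?_⟩, hd l h0 h1⟩
  · rintro X hX ⟨t, t0, t1, ht⟩
    exact short_main X ((packing_iff X).1 hX) t t0 t1 ht h0 h1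
  · rw [e]
    exact fun x hx => add_mem hx (Submodule.subset_span ⟨0, rfl⟩)

end Pool.Agent.Results.MP_f3b2fd_co.ShortPeriod
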