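import Mathlib
import Pool.Agent.Lib.MP_f3b2fd_co.KEP.V.Fin

set_option autoImplicit false

open MeasureTheory Set Real Filter

namespace Pool.Agent.Results.MP_f3b2fd_co.SoftKepler

open Pool.Agent.Lib.MP_f3b2fd_co

/-- The open unit balls centred at the points of `X` are pairwise disjoint. -/
def IsPacking (X : Set (EuclideanSpace ℝ (Fin 3))) : Prop :=
  X.PairwiseDisjoint fun x => Metric.ball x 1

/-- The upper density of a set. -/
noncomputable def upperDensity (A : Set (EuclideanSpace ℝ (Fin 3))) : ENNReal :=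
  limsup (fun R : ℝ => volume (Metric.ball 0 R ∩ A) /
    volume (Metric.ball (0 : EuclideanSpace ℝ (Fin 3)) R)) atTop

/-- The soft density of `X`: the upper density of the union of the closed balls of radius
`1 + l` centred at the points of `X`. -/
noncomputable def softDensity (X : Set (EuclideanSpace ℝ (Fin 3))) (l : ℝ) : ENNReal :=
  upperDensity (⋃ x ∈ X, Metric.closedBall x (1 + l))

/-- The largest soft density: the supremum over all packings. -/
noncomputable def delta3 (l : ℝ) : ENNReal :=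
  ⨆ (X : Set (EuclideanSpace ℝ (Fin 3))) (_ : IsPacking X), softDensity X l

/-- The face-centred cubic lattice of minimal distance two. -/
def fcc : Set (EuclideanSpace ℝ (Fin 3)) :=
  {x | ∃ i j k : ℤ, Even (i + j + k) ∧ x = !₂[√2 * i, √2 * j, √2 * k]}

/-- Consecutive shifts differ by one. -/
def IsStacking (s : ℤ → ℤ) : Prop := ∀ k, s (k + 1) = s k + 1 ∨ s (k + 1) = s k - 1

/-- The close-packed stacking with shift sequence `s`: layer number `k` is the triangular lattice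
spanned by `√2 (1, -1, 0)` and `√2 (0, 1, -1)`, moved by `k √2 (2, 2, 2) / 3` upwards and by
`s k √2 (1, 1, -2) / 3` sideways. -/
def barlow (s : ℤ → ℤ) : Set (EuclideanSpace ℝ (Fin 3)) :=
  {x | ∃ i j k : ℤ, x = (√2 * i) • !₂[1, -1, 0] + (√2 * j) • !₂[0, 1, -1] +
    (√2 * k / 3) • !₂[2, 2, 2] + (√2 * s k / 3) • !₂[1, 1, -2]}

/-- `Y` is the image of a close-packed stacking under an isometry of space. -/
def IsBarlow (Y : Set (EuclideanSpace ℝ (Fin 3))) : Prop :=
  ∃ s : ℤ → ℤ, IsStacking s ∧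
    ∃ g : EuclideanSpace ℝ (Fin 3) ≃ᵢ EuclideanSpace ℝ (Fin 3), Y = g '' barlow s

/-- `X` is invariant under three linearly independent translations. -/
def IsPeriodic (X : Set (EuclideanSpace ℝ (Fin 3))) : Prop :=
  ∃ b : Fin 3 → EuclideanSpace ℝ (Fin 3), LinearIndependent ℝ b ∧ ∀ i x, x + b i ∈ X ↔ x ∈ X

/-- `X` and `Y` agree up to `ε` within distance `ρ` of the point `y`. -/
def Close (X Y : Set (EuclideanSpace ℝ (Fin 3))) (y : EuclideanSpace ℝ (Fin 3)) (ρ ε : ℝ) : Prop :=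
  (∀ x ∈ X, dist x y < ρ → ∃ z ∈ Y, dist x z < ε) ∧
    ∀ z ∈ Y, dist z y < ρ → ∃ x ∈ X, dist x z < ε

theorem barlow_eq (s : ℤ → ℤ) : barlow s = {x | ∃ i j k, x = KC.bp s i j k} := by
  ext x
  refine exists₃_congr fun i j k => iff_of_eq (congrArg _ ?_)
  ext a
  fin_cases a <;> simp [KC.bp] <;> ring

theorem fcc_eq : fcc = barlow id := by
  rw [barlow_eq]
  ext x
  constructor
  · rintro ⟨i, j, k, ⟨m, hm⟩, rfl⟩
    refine ⟨i - m, -k, m, ?_⟩
    have hj : (j : ℝ) = m + m - i - k := by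
      have : j = m + m - i - k := by omega
      exact_mod_cast this
    ext a
    fin_cases a <;> simp [KC.bp, hj] <;> ring
  · rintro ⟨i, j, k, rfl⟩
    refine ⟨i + k, -i + j + k, -j, ⟨k, by ring⟩, ?_⟩
    ext a
    fin_cases a <;> simp [KC.bp] <;> ring

theorem steps_iff (s : ℤ → ℤ) : IsStacking s ↔ KU.Steps s :=
  forall_congr' fun k => by omega

theorem isBarlow_iff (Y : Set (EuclideanSpace ℝ (Fin 3))) : IsBarlow Y ↔ KV.Bar Y := by
  simp only [IsBarlow, KV.Bar, steps_iff, barlow_eq]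

theorem result (l : ℝ) (h0 : 0 < l) (h1 : l < 1 / 1000) :
    delta3 l = ENNReal.ofReal (π * (1 + 3 * l - 6 * l ^ 2 - 5 * l ^ 3) / √18) ∧
    (IsPacking fcc ∧ softDensity fcc l = delta3 l) ∧
    (∀ Y, IsBarlow Y → IsPacking Y ∧ softDensity Y l = delta3 l) ∧
    (∀ X, IsPacking X → IsPeriodic X → (softDensity X l = delta3 l ↔ IsBarlow X)) ∧
    ∀ X, IsPacking X → (softDensity X l = delta3 l ↔ ∀ ρ ε : ℝ, 0 < ρ → 0 < ε →
      upperDensity {y | ∃ Y, IsBarlow Y ∧ Close X Y y ρ ε} = 1) := by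
  obtain ⟨a, b, c⟩ := KV.allU l h0 h1
  have d : ∀ s : ℤ → ℤ, IsStacking s → IsPacking (barlow s) ∧
      softDensity (barlow s) l = ENNReal.ofReal (Wv l / √32) := fun s hs =>
    b s ((steps_iff s).1 hs) _ (barlow_eq s)
  obtain ⟨b1, b2⟩ := d id fun k => Or.inl rfl
  have e : delta3 l = ENNReal.ofReal (Wv l / √32) :=
    le_antisymm (iSup₂_le a) (le_iSup₂_of_le _ b1 b2.ge)
  rw [e, fcc_eq, ← val_eq]
  refine ⟨rfl, ⟨b1, b2⟩, ?_, fun X hX hP => (c X hX hP).trans (isBarlow_iff X).symm,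
    fun X hX => ?_⟩
  · rintro _ ⟨s, hs, g, rfl⟩
    refine ⟨?_, (KU.isoS g _ l).trans (d s hs).2⟩
    rintro _ ⟨x, hx, rfl⟩ _ ⟨y, hy, rfl⟩ n
    have := (disjoint_ball_ball_iff one_pos one_pos).1 ((d s hs).1 hx hy fun e => n (e ▸ rfl))
    exact (disjoint_ball_ball_iff one_pos one_pos).2 (by rwa [g.dist_eq])
  · simp only [isBarlow_iff]
    exact KV.allV l h0 h1 X hX

end Pool.Agent.Results.MP_f3b2fd_co.SoftKepler
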